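import Mathlib
import Pool.Agent.MP_eb6270_al.Main

set_option autoImplicit false

/-! The set of the points of the boundary of the free group with non-conical image under the
Cannon-Thurston map of a word-hyperbolic mapping torus has Hausdorff dimension zero. -/

namespace Pool.Agent.Results.MP_eb6270_al.NonconicalDimZero

open Pool.Agent.CT

/-- Let `φ` be an automorphism of `F_r` with word-hyperbolic `G_φ = F_r ⋊_φ ℤ` (the Cayley graph
for the finite generating set `S` is connected and Gromov hyperbolic), `T` a point of `cv_r`,
`x₀` a vertex of `T` and `a > 1`. Then the set `B` of the ends of `T` whose image under the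
Cannon-Thurston map is not a conical limit point for `F_r` has Hausdorff dimension `0` for the
visual metric `d_a`. -/
theorem result (r : ℕ) (φ : MulAut (FreeGroup (Fin r))) (S : Set (MappingTorus φ))
    (hS : S.Finite) (hhyp : IsGromovHyperbolic (SimpleGraph.mulCayley S))
    (T : OuterTree r) (x₀ : T.V) (a : ℝ) (ha : 1 < a) :
    @dimH (TreeBoundary T x₀) (visualMetric T x₀ ha).toEMetricSpace
      (nonconicalPreimage φ S T x₀) = 0 :=
  dimH_nonconicalPreimage φ S hS hhyp T x₀ a ha

end Pool.Agent.Results.MP_eb6270_al.NonconicalDimZero
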